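import Mathlib

set_option autoImplicit false
open Finset

namespace Pool.Agent.X145.SS

/-- average over a finite type -/
noncomputable def av {X : Type*} [Fintype X] (f : X → ℝ) : ℝ := (∑ x, f x) / Fintype.card X

section
variable {X Y : Type*} [Fintype X] [Fintype Y]

theorem av_mono {f g : X → ℝ} (h : ∀ x, f x ≤ g x) : av f ≤ av g := by
  unfold av
  exact div_le_div_of_nonneg_right (Finset.sum_le_sum fun x _ => h x) (by positivity)

theorem av_nonneg {f : X → ℝ} (h : ∀ x, 0 ≤ f x) : 0 ≤ av f := by
  unfold av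
  exact div_nonneg (Finset.sum_nonneg fun x _ => h x) (by positivity)

theorem av_const [Nonempty X] (c : ℝ) : av (fun _ : X => c) = c := by
  unfold av
  rw [Finset.sum_const, Finset.card_univ, nsmul_eq_mul]
  have : (Fintype.card X : ℝ) ≠ 0 := by
    have := Fintype.card_pos (α := X)
    positivity
  field_simp

theorem av_congr {f g : X → ℝ} (h : ∀ x, f x = g x) : av f = av g := by
  unfold av
  congr 1
  exact Finset.sum_congr rfl fun x _ => h x

theorem av_equiv (e : X ≃ Y) (f : Y → ℝ) : av (fun x => f (e x)) = av f := by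
  unfold av
  rw [Fintype.card_congr e, Equiv.sum_comp e f]

theorem av_add (f g : X → ℝ) : av (fun x => f x + g x) = av f + av g := by
  unfold av
  rw [Finset.sum_add_distrib, add_div]

theorem av_sub (f g : X → ℝ) : av (fun x => f x - g x) = av f - av g := by
  unfold av
  rw [Finset.sum_sub_distrib, sub_div]

theorem av_mul_left (c : ℝ) (f : X → ℝ) : av (fun x => c * f x) = c * av f := by
  unfold av
  rw [← Finset.mul_sum, mul_div_assoc]

theorem av_sum {ι : Type*} (s : Finset ι) (f : ι → X → ℝ) :
    av (fun x => ∑ i ∈ s, f i x) = ∑ i ∈ s, av (f i) := by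
  unfold av
  rw [Finset.sum_comm, Finset.sum_div]

theorem av_prod (f : X → Y → ℝ) :
    av (fun z : X × Y => f z.1 z.2) = av (fun x => av (fun y => f x y)) := by
  unfold av
  rw [Fintype.sum_prod_type, Fintype.card_prod]
  rw [← Finset.sum_div, div_div]
  push_cast
  ring_nf

theorem av_fst [Nonempty Y] (f : X → ℝ) : av (fun z : X × Y => f z.1) = av f := by
  have h := av_prod (X := X) (Y := Y) (fun x _ => f x)
  rw [h]
  exact av_congr fun x => av_const _

theorem av_pi_prod {ι : Type*} [Fintype ι] [DecidableEq ι] (f : ι → X → ℝ) :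
    av (fun s : ι → X => ∏ j, f j (s j)) = ∏ j, av (f j) := by
  unfold av
  rw [Finset.prod_div_distrib, Finset.prod_const, Finset.card_univ, Fintype.card_fun]
  rw [Finset.prod_univ_sum, Fintype.piFinset_univ]
  push_cast
  rfl

theorem av_pi_pow (m : ℕ) (f : X → ℝ) :
    av (fun s : Fin m → X => ∏ j, f (s j)) = (av f) ^ m := by
  rw [av_pi_prod (fun _ : Fin m => f), Finset.prod_const, Finset.card_univ, Fintype.card_fin]

/-- the average over all functions of a function of the coordinates in the range of an injection -/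
theorem av_comp_inj {I K : Type*} [Fintype I] [DecidableEq I] [Fintype K] [DecidableEq K]
    [Nonempty X] (κ : K → I) (hκ : Function.Injective κ) (F : (K → X) → ℝ) :
    av (fun ω : I → X => F (fun k => ω (κ k))) = av F := by
  classical
  let e : I ≃ K ⊕ {i // i ∉ Set.range κ} :=
    (Equiv.Set.sumCompl (Set.range κ)).symm.trans
      (Equiv.sumCongr (Equiv.ofInjective κ hκ).symm (Equiv.refl _))
  let e2 : (I → X) ≃ (K → X) × ({i // i ∉ Set.range κ} → X) :=
    (Equiv.arrowCongr e (Equiv.refl X)).trans (Equiv.sumArrowEquivProdArrow _ _ _)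
  have hs : ∀ k, e.symm (Sum.inl k) = κ k := by
    intro k
    simp [e]
  have h1 : ∀ ω : I → X, (e2 ω).1 = fun k => ω (κ k) := by
    intro ω
    funext k
    change ω (e.symm (Sum.inl k)) = ω (κ k)
    rw [hs]
  have h2 : av (fun ω : I → X => F (fun k => ω (κ k)))
      = av (fun z : (K → X) × ({i // i ∉ Set.range κ} → X) => F z.1) := by
    rw [← av_equiv e2]
    exact av_congr fun ω => by rw [h1]
  rw [h2]
  exact av_fst F

theorem av_eq_ind [DecidableEq X] (a : X) : av (fun x : X => if x = a then (1 : ℝ) else 0) =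
    1 / Fintype.card X := by
  unfold av
  simp

/-- second moment method -/
theorem second_moment [Nonempty X] (N : X → ℝ) (hE : av N ≠ 0) :
    av (fun x => if N x = 0 then (1 : ℝ) else 0) ≤ (av (fun x => N x ^ 2) - (av N) ^ 2) / (av N) ^ 2 := by
  have hpos : 0 < (av N) ^ 2 := by positivity
  rw [le_div_iff₀ hpos]
  have h1 : av (fun x => (N x - av N) ^ 2) = av (fun x => N x ^ 2) - (av N) ^ 2 := by
    have : ∀ x, (N x - av N) ^ 2 = N x ^ 2 - (2 * av N) * N x + (av N) ^ 2 := fun x => by ring
    rw [av_congr this, av_add, av_sub, av_mul_left, av_const]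
    ring
  rw [← h1, mul_comm, ← av_mul_left]
  refine av_mono fun x => ?_
  split_ifs with h
  · rw [h]
    nlinarith
  · nlinarith [sq_nonneg (N x - av N)]

/-- Markov -/
theorem markov {f : X → ℝ} (h0 : ∀ x, 0 ≤ f x) {a : ℝ} (ha : 0 < a) :
    av (fun x => if a ≤ f x then (1 : ℝ) else 0) ≤ av f / a := by
  rw [le_div_iff₀ ha, mul_comm, ← av_mul_left]
  refine av_mono fun x => ?_
  split_ifs with h
  · linarith
  · have := h0 x
    linarith

end

end Pool.Agent.X145.SS
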