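import Pool.Agent.X145.SS.Av

set_option autoImplicit false
open Matrix

namespace Pool.Agent.X145.SS

/-- An outcome of the randomness of an `n × (b ζ)` SparseStack: for every row `i` and every block `j`
the sign `ϱ i j` (`true` is `+1`, `false` is `-1`) and the position `s i j` inside the block. -/
abbrev Outcome (n b ζ : ℕ) : Type := Fin n → Fin ζ → Bool × Fin b

/-- Probability of an event when all signs and positions are independent and uniform, i.e. the
uniform law on the finite set of all outcomes. -/
noncomputable def prob {n b ζ : ℕ} (A : Set (Outcome n b ζ)) : ℝ :=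
  (Nat.card A : ℝ) / (Nat.card (Outcome n b ζ) : ℝ)

/-- The SparseStack matrix with `k = b ζ` columns, indexed by the pairs (block, position in the
block). Row `i` has in block `j` exactly one nonzero entry, `± 1/√ζ` at the random position. -/
noncomputable def sparseStack {n b ζ : ℕ} (ω : Outcome n b ζ) :
    Matrix (Fin n) (Fin ζ × Fin b) ℝ :=
  fun i c => if (ω i c.1).2 = c.2 then (if (ω i c.1).1 then (1 : ℝ) else -1) / Real.sqrt ζ else 0

/-- Squared Euclidean norm. -/
noncomputable def normSq {ι : Type} [Fintype ι] (x : ι → ℝ) : ℝ := ∑ i, x i ^ 2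

/-- The injectivity inequality `α ‖x‖² ≤ ‖Ωᵀ x‖²` for all `x ∈ V`. -/
def Injects {n b ζ : ℕ} (ω : Outcome n b ζ) (V : Submodule ℝ (Fin n → ℝ)) (α : ℝ) : Prop :=
  ∀ x ∈ V, α * normSq x ≤ normSq ((sparseStack ω)ᵀ.mulVec x)

end Pool.Agent.X145.SS
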