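import Pool.Agent.X145.SS.Av

set_option autoImplicit false
open Finset

namespace Pool.Agent.X145.SS

/-- hit indicator -/
noncomputable def hit {b q : ℕ} (a : Fin b) (τ : Fin q → Fin b) : ℝ :=
  if ∃ u, τ u = a then 1 else 0

/-- miss as a product -/
theorem hit_eq {b q : ℕ} (a : Fin b) (τ : Fin q → Fin b) :
    hit a τ = 1 - ∏ u, (if τ u = a then (0 : ℝ) else 1) := by
  unfold hit
  by_cases h : ∃ u, τ u = a
  · rw [if_pos h]
    obtain ⟨u, hu⟩ := h
    rw [Finset.prod_eq_zero (Finset.mem_univ u) (by rw [if_pos hu])]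
    ring
  · rw [if_neg h]
    push Not at h
    rw [Finset.prod_eq_one fun u _ => by rw [if_neg (h u)]]
    ring

theorem hit_sq {b q : ℕ} (a : Fin b) (τ : Fin q → Fin b) : hit a τ * hit a τ = hit a τ := by
  unfold hit
  split_ifs <;> simp

/-- the hitting probability -/
noncomputable def hp (b q : ℕ) : ℝ := 1 - (1 - 1 / (b : ℝ)) ^ q

theorem av_miss_one {b : ℕ} (hb : 0 < b) (a : Fin b) :
    av (fun x : Fin b => if x = a then (0 : ℝ) else 1) = 1 - 1 / (b : ℝ) := by
  have : Nonempty (Fin b) := ⟨⟨0, hb⟩⟩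
  have h : ∀ x : Fin b, (if x = a then (0 : ℝ) else 1) = 1 - (if x = a then (1 : ℝ) else 0) := by
    intro x
    split_ifs <;> ring
  rw [av_congr h, av_sub, av_const, av_eq_ind, Fintype.card_fin]

theorem av_miss_two {b : ℕ} (hb : 0 < b) (a a' : Fin b) (haa : a ≠ a') :
    av (fun x : Fin b => (if x = a then (0 : ℝ) else 1) * (if x = a' then (0 : ℝ) else 1))
      = 1 - 2 / (b : ℝ) := by
  have : Nonempty (Fin b) := ⟨⟨0, hb⟩⟩
  have h : ∀ x : Fin b, (if x = a then (0 : ℝ) else 1) * (if x = a' then (0 : ℝ) else 1)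
      = 1 - (if x = a then (1 : ℝ) else 0) - (if x = a' then (1 : ℝ) else 0) := by
    intro x
    by_cases h1 : x = a
    · subst h1
      simp [haa]
    · by_cases h2 : x = a'
      · subst h2
        simp [h1]
      · simp [h1, h2]
  rw [av_congr h, av_sub, av_sub, av_const, av_eq_ind, av_eq_ind, Fintype.card_fin]
  ring

theorem av_hit {b q : ℕ} (hb : 0 < b) (a : Fin b) :
    av (fun τ : Fin q → Fin b => hit a τ) = hp b q := by
  have : Nonempty (Fin b) := ⟨⟨0, hb⟩⟩
  rw [av_congr (fun τ => hit_eq a τ), av_sub, av_const, av_pi_pow q (fun x => if x = a then (0 : ℝ) else 1),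
    av_miss_one hb]
  rfl

theorem av_hit_two {b q : ℕ} (hb : 0 < b) (a a' : Fin b) (haa : a ≠ a') :
    av (fun τ : Fin q → Fin b => hit a τ * hit a' τ) ≤ hp b q ^ 2 := by
  have : Nonempty (Fin b) := ⟨⟨0, hb⟩⟩
  have hb2 : 2 ≤ b := by
    by_contra h
    have : b = 1 := by omega
    subst this
    exact haa (Subsingleton.elim _ _)
  have h : ∀ τ : Fin q → Fin b, hit a τ * hit a' τ =
      1 - (∏ u, (if τ u = a then (0 : ℝ) else 1)) - (∏ u, (if τ u = a' then (0 : ℝ) else 1)) +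
        ∏ u, ((if τ u = a then (0 : ℝ) else 1) * (if τ u = a' then (0 : ℝ) else 1)) := by
    intro τ
    rw [hit_eq, hit_eq, Finset.prod_mul_distrib]
    ring
  rw [av_congr h, av_add, av_sub, av_sub, av_const,
    av_pi_pow q (fun x => if x = a then (0 : ℝ) else 1),
    av_pi_pow q (fun x => if x = a' then (0 : ℝ) else 1),
    av_pi_pow q (fun x => (if x = a then (0 : ℝ) else 1) * (if x = a' then (0 : ℝ) else 1)),
    av_miss_one hb, av_miss_one hb, av_miss_two hb a a' haa]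
  unfold hp
  have hbR : (2 : ℝ) ≤ b := by exact_mod_cast hb2
  have h1 : 0 ≤ 1 - 2 / (b : ℝ) := by
    rw [sub_nonneg, div_le_one (by linarith)]
    exact hbR
  have h2 : 1 - 2 / (b : ℝ) ≤ (1 - 1 / (b : ℝ)) ^ 2 := by
    have : (1 - 1 / (b : ℝ)) ^ 2 = 1 - 2 / b + (1 / (b : ℝ)) ^ 2 := by ring
    rw [this]
    have := sq_nonneg (1 / (b : ℝ))
    linarith
  have h3 : (1 - 2 / (b : ℝ)) ^ q ≤ ((1 - 1 / (b : ℝ)) ^ q) ^ 2 := by
    rw [← pow_mul, mul_comm q 2, pow_mul]
    exact pow_le_pow_left₀ h1 h2 q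
  nlinarith [h3]

theorem hp_nonneg {b q : ℕ} (hb : 0 < b) : 0 ≤ hp b q := by
  have : Nonempty (Fin b) := ⟨⟨0, hb⟩⟩
  rw [← av_hit hb ⟨0, hb⟩]
  refine av_nonneg fun τ => ?_
  unfold hit
  split_ifs <;> norm_num

/-- the data of one block: positions of the roots and of the helpers -/
abbrev BD (R M q b : ℕ) : Type := (Fin R → Fin b) × (Fin M → Fin q → Fin b)

/-- root `i` is served in this block -/
noncomputable def gI {R M q b : ℕ} (i : Fin R) (d : BD R M q b) : ℝ := ∏ g, hit (d.1 i) (d.2 g)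

theorem gI_sq {R M q b : ℕ} (i : Fin R) (d : BD R M q b) : gI i d * gI i d = gI i d := by
  unfold gI
  rw [← Finset.prod_mul_distrib]
  exact Finset.prod_congr rfl fun g _ => hit_sq _ _

theorem av_gI {R M q b : ℕ} (hb : 0 < b) (i : Fin R) :
    av (fun d : BD R M q b => gI i d) = hp b q ^ M := by
  have : Nonempty (Fin b) := ⟨⟨0, hb⟩⟩
  have h := av_prod (X := Fin R → Fin b) (Y := Fin M → Fin q → Fin b)
    (fun α t => ∏ g, hit (α i) (t g))
  have h2 : av (fun d : BD R M q b => gI i d) =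
      av (fun α : Fin R → Fin b => av (fun t : Fin M → Fin q → Fin b => ∏ g, hit (α i) (t g))) := h
  rw [h2]
  have h3 : ∀ α : Fin R → Fin b, av (fun t : Fin M → Fin q → Fin b => ∏ g, hit (α i) (t g))
      = hp b q ^ M := by
    intro α
    rw [av_pi_pow M (fun τ : Fin q → Fin b => hit (α i) τ), av_hit hb]
  rw [av_congr h3, av_const]

theorem av_eq_two {R b : ℕ} (hb : 0 < b) (i i' : Fin R) (hii : i ≠ i') :
    av (fun α : Fin R → Fin b => if α i = α i' then (1 : ℝ) else 0) = 1 / b := by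
  have : Nonempty (Fin b) := ⟨⟨0, hb⟩⟩
  let e := Equiv.funSplitAt i (Fin b)
  have h1 : av (fun α : Fin R → Fin b => if α i = α i' then (1 : ℝ) else 0)
      = av (fun z : Fin b × ({j // j ≠ i} → Fin b) =>
          if z.1 = z.2 ⟨i', hii.symm⟩ then (1 : ℝ) else 0) := by
    rw [← av_equiv e]
    exact av_congr fun α => rfl
  rw [h1]
  have h2 := av_equiv (Equiv.prodComm ({j // j ≠ i} → Fin b) (Fin b))
    (fun z : Fin b × ({j // j ≠ i} → Fin b) =>
          if z.1 = z.2 ⟨i', hii.symm⟩ then (1 : ℝ) else 0)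
  rw [← h2]
  have h3 := av_prod (X := {j // j ≠ i} → Fin b) (Y := Fin b)
    (fun β x => if x = β ⟨i', hii.symm⟩ then (1 : ℝ) else 0)
  refine Eq.trans ?_ (h3.trans ?_)
  · rfl
  · have h4 : ∀ β : {j // j ≠ i} → Fin b,
        av (fun x : Fin b => if x = β ⟨i', hii.symm⟩ then (1 : ℝ) else 0) = 1 / (b : ℝ) := by
      intro β
      rw [av_eq_ind, Fintype.card_fin]
    rw [av_congr h4, av_const]

theorem av_gI_two {R M q b : ℕ} (hb : 0 < b) (i i' : Fin R) (hii : i ≠ i') :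
    av (fun d : BD R M q b => gI i d * gI i' d) ≤ hp b q ^ (2 * M) + hp b q ^ M / b := by
  have : Nonempty (Fin b) := ⟨⟨0, hb⟩⟩
  have h := av_prod (X := Fin R → Fin b) (Y := Fin M → Fin q → Fin b)
    (fun α t => ∏ g, (hit (α i) (t g) * hit (α i') (t g)))
  have h2 : av (fun d : BD R M q b => gI i d * gI i' d) =
      av (fun α : Fin R → Fin b => av (fun t : Fin M → Fin q → Fin b =>
        ∏ g, (hit (α i) (t g) * hit (α i') (t g)))) := by
    rw [← h]
    refine av_congr fun d => ?_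
    unfold gI
    rw [Finset.prod_mul_distrib]
  rw [h2]
  have h3 : ∀ α : Fin R → Fin b, av (fun t : Fin M → Fin q → Fin b =>
        ∏ g, (hit (α i) (t g) * hit (α i') (t g)))
      ≤ hp b q ^ (2 * M) + hp b q ^ M * (if α i = α i' then (1 : ℝ) else 0) := by
    intro α
    rw [av_pi_pow M (fun τ : Fin q → Fin b => hit (α i) τ * hit (α i') τ)]
    by_cases hα : α i = α i'
    · rw [if_pos hα, ← hα, av_congr (fun τ => hit_sq (α i) τ), av_hit hb]
      have := pow_nonneg (hp_nonneg (q := q) hb) (2 * M)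
      linarith
    · rw [if_neg hα, mul_zero, add_zero, pow_mul]
      refine pow_le_pow_left₀ (av_nonneg fun τ => ?_) (av_hit_two hb _ _ hα) M
      unfold hit
      split_ifs <;> norm_num
  refine (av_mono h3).trans ?_
  rw [av_add, av_const, av_mul_left, av_eq_two hb i i' hii]
  apply le_of_eq
  ring

/-- number of good roots -/
noncomputable def NN {R M q b : ℕ} (ζ : ℕ) (s : Fin ζ → BD R M q b) : ℝ :=
  ∑ i : Fin R, ∏ j, gI i (s j)

theorem av_NN {R M q b : ℕ} (ζ : ℕ) (hb : 0 < b) :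
    av (fun s : Fin ζ → BD R M q b => NN ζ s) = R * (hp b q ^ M) ^ ζ := by
  unfold NN
  rw [av_sum]
  have : ∀ i : Fin R, av (fun s : Fin ζ → BD R M q b => ∏ j, gI i (s j)) = (hp b q ^ M) ^ ζ := by
    intro i
    rw [av_pi_pow ζ (fun d : BD R M q b => gI i d), av_gI hb]
  rw [Finset.sum_congr rfl fun i _ => this i]
  simp

theorem gI_nonneg {R M q b : ℕ} (i : Fin R) (d : BD R M q b) : 0 ≤ gI i d := by
  unfold gI hit
  refine Finset.prod_nonneg fun g _ => ?_
  split_ifs <;> norm_num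

theorem av_NN_sq {R M q b : ℕ} (ζ : ℕ) (hb : 0 < b) :
    av (fun s : Fin ζ → BD R M q b => NN ζ s ^ 2) ≤
      R * (hp b q ^ M) ^ ζ + (R : ℝ) ^ 2 * (hp b q ^ (2 * M) + hp b q ^ M / b) ^ ζ := by
  have h1 : ∀ s : Fin ζ → BD R M q b, NN ζ s ^ 2 =
      ∑ i : Fin R, ∑ i' : Fin R, ∏ j, (gI i (s j) * gI i' (s j)) := by
    intro s
    unfold NN
    rw [sq, Finset.sum_mul_sum]
    refine Finset.sum_congr rfl fun i _ => Finset.sum_congr rfl fun i' _ => ?_
    rw [Finset.prod_mul_distrib]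
  rw [av_congr h1, av_sum]
  have h2 : ∀ i : Fin R, av (fun s : Fin ζ → BD R M q b => ∑ i' : Fin R, ∏ j, (gI i (s j) * gI i' (s j)))
      ≤ (hp b q ^ M) ^ ζ + R * (hp b q ^ (2 * M) + hp b q ^ M / b) ^ ζ := by
    intro i
    rw [av_sum]
    have h3 : ∀ i' : Fin R, av (fun s : Fin ζ → BD R M q b => ∏ j, (gI i (s j) * gI i' (s j)))
        ≤ (if i' = i then (hp b q ^ M) ^ ζ else 0) + (hp b q ^ (2 * M) + hp b q ^ M / b) ^ ζ := by
      intro i'
      rw [av_pi_pow ζ (fun d : BD R M q b => gI i d * gI i' d)]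
      have hnn : 0 ≤ hp b q ^ (2 * M) + hp b q ^ M / b := by
        have := hp_nonneg (q := q) hb
        positivity
      by_cases hii : i' = i
      · subst hii
        rw [if_pos rfl, av_congr (fun d : BD R M q b => gI_sq i' d), av_gI hb]
        have := pow_nonneg hnn ζ
        linarith
      · rw [if_neg hii, zero_add]
        exact pow_le_pow_left₀ (av_nonneg fun d => mul_nonneg (gI_nonneg _ _) (gI_nonneg _ _))
          (av_gI_two hb i i' (Ne.symm hii)) ζ
    refine (Finset.sum_le_sum fun i' _ => h3 i').trans ?_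
    rw [Finset.sum_add_distrib]
    simp
  refine (Finset.sum_le_sum fun i _ => h2 i).trans ?_
  rw [Finset.sum_const, Finset.card_univ, Fintype.card_fin, nsmul_eq_mul]
  apply le_of_eq
  ring

/-- probability of no good root -/
theorem no_root {R M q b : ℕ} (ζ : ℕ) (hb : 0 < b) (hR : 0 < R) (hq : 0 < hp b q) :
    av (fun s : Fin ζ → BD R M q b => if NN ζ s = 0 then (1 : ℝ) else 0) ≤
      1 / (R * (hp b q ^ M) ^ ζ) + ((1 + 1 / (b * hp b q ^ M)) ^ ζ - 1) := by
  have : Nonempty (Fin b) := ⟨⟨0, hb⟩⟩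
  have hE := av_NN (R := R) (M := M) (q := q) ζ hb
  have hR' : (0 : ℝ) < R := by exact_mod_cast hR
  have hb' : (0 : ℝ) < b := by exact_mod_cast hb
  have hpos : 0 < (R : ℝ) * (hp b q ^ M) ^ ζ := by positivity
  have h1 := second_moment (fun s : Fin ζ → BD R M q b => NN ζ s) (by rw [hE]; exact hpos.ne')
  refine h1.trans ?_
  rw [hE]
  have h2 := av_NN_sq (R := R) (M := M) (q := q) ζ hb
  have h3 : (hp b q ^ (2 * M) + hp b q ^ M / b) ^ ζ
      = ((hp b q ^ M) ^ ζ) ^ 2 * (1 + 1 / (b * hp b q ^ M)) ^ ζ := by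
    have h4 : hp b q ^ (2 * M) + hp b q ^ M / b = (hp b q ^ M) ^ 2 * (1 + 1 / (b * hp b q ^ M)) := by
      rw [mul_comm 2 M, pow_mul]
      field_simp
    rw [h4, mul_pow, ← pow_mul, ← pow_mul _ ζ 2, mul_comm ζ 2]
  rw [h3] at h2
  set w := (hp b q ^ M) ^ ζ with hw
  set z := (1 + 1 / (b * hp b q ^ M)) ^ ζ with hz
  have hw0 : 0 < w := by positivity
  rw [div_le_iff₀ (by positivity)]
  have : (1 / ((R : ℝ) * w) + (z - 1)) * ((R : ℝ) * w) ^ 2 = R * w + (R : ℝ) ^ 2 * (w ^ 2 * z) - (R * w) ^ 2 := by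
    field_simp
    ring
  rw [this]
  linarith

end Pool.Agent.X145.SS
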