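import Pool.Agent.X145.SS.Sign
import Pool.Agent.X145.SS.Pos

set_option autoImplicit false
open Finset Matrix Filter Topology

namespace Pool.Agent.X145.SS

theorem prob_eq_av {n b ζ : ℕ} (A : Set (Outcome n b ζ)) [DecidablePred (· ∈ A)] :
    prob A = av (fun ω : Outcome n b ζ => if ω ∈ A then (1 : ℝ) else 0) := by
  unfold prob av
  rw [Nat.card_eq_fintype_card, Finset.sum_boole, Nat.card_eq_fintype_card]
  congr 2
  exact Fintype.card_subtype _

/-- the positions used by the construction, block by block -/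
def projD {n b ζ R M q : ℕ} (row : Fin R ⊕ (Fin M × Fin ζ × Fin q) → Fin n)
    (p : Fin n → Fin ζ → Fin b) : Fin ζ → BD R M q b :=
  fun j => (fun i => p (row (Sum.inl i)) j, fun g u => p (row (Sum.inr (g, j, u))) j)

/-- coordinates used -/
def kap {n ζ R M q : ℕ} (row : Fin R ⊕ (Fin M × Fin ζ × Fin q) → Fin n) :
    Fin ζ × (Fin R ⊕ (Fin M × Fin q)) → Fin n × Fin ζ
  | (j, Sum.inl i) => (row (Sum.inl i), j)
  | (j, Sum.inr (g, u)) => (row (Sum.inr (g, j, u)), j)

theorem kap_inj {n ζ R M q : ℕ} (row : Fin R ⊕ (Fin M × Fin ζ × Fin q) → Fin n)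
    (hrow : Function.Injective row) : Function.Injective (kap row) := by
  rintro ⟨j, x⟩ ⟨j', x'⟩ h
  rcases x with i | ⟨g, u⟩ <;> rcases x' with i' | ⟨g', u'⟩ <;> simp only [kap, Prod.mk.injEq] at h
  · obtain ⟨h1, h2⟩ := h
    have := hrow h1
    simp only [Sum.inl.injEq] at this
    rw [this, h2]
  · exact absurd (hrow h.1) (by simp)
  · exact absurd (hrow h.1) (by simp)
  · obtain ⟨h1, h2⟩ := h
    have := hrow h1
    simp only [Sum.inr.injEq, Prod.mk.injEq] at this
    rw [this.1, this.2.1, this.2.2]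

/-- repackaging -/
def packE (ζ R M q b : ℕ) : (Fin ζ × (Fin R ⊕ (Fin M × Fin q)) → Fin b) ≃ (Fin ζ → BD R M q b) where
  toFun k := fun j => (fun i => k (j, Sum.inl i), fun g u => k (j, Sum.inr (g, u)))
  invFun s := fun x => match x with
    | (j, Sum.inl i) => (s j).1 i
    | (j, Sum.inr (g, u)) => (s j).2 g u
  left_inv k := by
    funext x
    rcases x with ⟨j, i | ⟨g, u⟩⟩ <;> rfl
  right_inv s := by
    funext j
    rfl

theorem av_projD {n b ζ R M q : ℕ} (hb : 0 < b) (row : Fin R ⊕ (Fin M × Fin ζ × Fin q) → Fin n)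
    (hrow : Function.Injective row) (F : (Fin ζ → BD R M q b) → ℝ) :
    av (fun p : Fin n → Fin ζ → Fin b => F (projD row p)) = av F := by
  have : Nonempty (Fin b) := ⟨⟨0, hb⟩⟩
  have h1 := av_equiv (Equiv.curry (Fin n) (Fin ζ) (Fin b))
    (fun p : Fin n → Fin ζ → Fin b => F (projD row p))
  rw [← h1]
  have h2 := av_comp_inj (X := Fin b) (kap row) (kap_inj row hrow)
    (fun k => F (packE ζ R M q b k))
  rw [← av_equiv (packE ζ R M q b) F, ← h2]
  refine av_congr fun p => ?_
  congr 1

/-- the main bound: sign part plus position part -/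
theorem prob_injects_le {n b ζ R M q : ℕ} (hb : 0 < b) (hζ : 0 < ζ) (hM : 0 < M)
    (row : Fin R ⊕ (Fin M × Fin ζ × Fin q) → Fin n) (hrow : Function.Injective row)
    (V : Submodule ℝ (Fin n → ℝ)) (hV : ∀ x, ∀ v : ℝ, (Pi.single (row x) v : Fin n → ℝ) ∈ V)
    (α : ℝ) (hα : 0 < α) :
    prob {ω : Outcome n b ζ | Injects ω V α} ≤ ζ / M / α +
      av (fun s : Fin ζ → BD R M q b => if NN ζ s = 0 then (1 : ℝ) else 0) := by
  classical
  have : Nonempty (Fin b) := ⟨⟨0, hb⟩⟩
  rw [prob_eq_av]
  let e : ((Fin n → Fin ζ → Fin b) × (Fin n × Fin ζ → Bool)) ≃ Outcome n b ζ :=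
    { toFun := fun z => join z.2 z.1
      invFun := fun ω => (fun i j => (ω i j).2, fun x => (ω x.1 x.2).1)
      left_inv := fun z => rfl
      right_inv := fun ω => rfl }
  rw [← av_equiv e]
  have h1 := av_prod (X := Fin n → Fin ζ → Fin b) (Y := Fin n × Fin ζ → Bool)
    (fun p σ => if Injects (join σ p) V α then (1 : ℝ) else 0)
  have h2 : av (fun z : (Fin n → Fin ζ → Fin b) × (Fin n × Fin ζ → Bool) =>
      if e z ∈ {ω : Outcome n b ζ | Injects ω V α} then (1 : ℝ) else 0) =
      av (fun p : Fin n → Fin ζ → Fin b => av (fun σ : Fin n × Fin ζ → Bool =>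
        if Injects (join σ p) V α then (1 : ℝ) else 0)) := h1
  rw [h2]
  have h3 : ∀ p : Fin n → Fin ζ → Fin b, av (fun σ : Fin n × Fin ζ → Bool =>
        if Injects (join σ p) V α then (1 : ℝ) else 0) ≤
      ζ / M / α + (if NN ζ (projD row p) = 0 then (1 : ℝ) else 0) := by
    intro p
    by_cases hN : NN ζ (projD row p) = 0
    · rw [if_pos hN]
      have h4 : av (fun σ : Fin n × Fin ζ → Bool =>
        if Injects (join σ p) V α then (1 : ℝ) else 0) ≤ av (fun _ : Fin n × Fin ζ → Bool => (1 : ℝ)) := by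
        refine av_mono fun σ => ?_
        split_ifs <;> norm_num
      rw [av_const] at h4
      have : 0 ≤ (ζ : ℝ) / M / α := by positivity
      linarith
    · rw [if_neg hN, add_zero]
      unfold NN at hN
      obtain ⟨i, -, hi⟩ := Finset.exists_ne_zero_of_sum_ne_zero hN
      rw [Finset.prod_ne_zero_iff] at hi
      have h5 : ∀ a : Fin M × Fin ζ, ∃ u : Fin q,
          p (row (Sum.inr (a.1, a.2, u))) a.2 = p (row (Sum.inl i)) a.2 := by
        intro a
        have h6 := hi a.2 (Finset.mem_univ _)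
        unfold gI at h6
        rw [Finset.prod_ne_zero_iff] at h6
        have h7 := h6 a.1 (Finset.mem_univ _)
        unfold hit at h7
        by_contra hcon
        exact h7 (if_neg (show ¬ ∃ u, (projD row p a.2).2 a.1 u = (projD row p a.2).1 i from hcon))
      choose u hu using h5
      refine av_injects hM hζ (row (Sum.inl i)) (fun a => row (Sum.inr (a.1, a.2, u a))) ?_ ?_ p hu V
        (hV _ _) (fun a v => hV _ _) α hα
      · intro a a' haa
        have := hrow haa
        simp only [Sum.inr.injEq, Prod.mk.injEq] at this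
        exact Prod.ext this.1 this.2.1
      · intro a haa
        exact absurd (hrow haa) (by simp)
  refine (av_mono h3).trans ?_
  rw [av_add, av_const]
  exact le_of_eq (by rw [av_projD hb row hrow (fun s => if NN ζ s = 0 then (1 : ℝ) else 0)])

/-- the coordinate subspace of the first `r` coordinates -/
def coordSub (n r : ℕ) : Submodule ℝ (Fin n → ℝ) where
  carrier := {x | ∀ i : Fin n, r ≤ i.val → x i = 0}
  add_mem' := by
    intro x y hx hy i hi
    rw [Pi.add_apply, hx i hi, hy i hi, add_zero]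
  zero_mem' := by
    intro i _
    rfl
  smul_mem' := by
    intro c x hx i hi
    rw [Pi.smul_apply, hx i hi, smul_zero]

theorem finrank_coordSub (n r : ℕ) (hr : r ≤ n) : Module.finrank ℝ (coordSub n r) = r := by
  let e : (Fin r → ℝ) ≃ₗ[ℝ] coordSub n r :=
    { toFun := fun x => ⟨fun i => if h : i.val < r then x ⟨i.val, h⟩ else 0, by
        intro i hi
        simp only [not_lt.2 hi, dif_neg, not_false_iff]⟩
      map_add' := by
        intro x y
        ext i
        simp only [Submodule.coe_add, Pi.add_apply]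
        split_ifs
        · rfl
        · simp
      map_smul' := by
        intro c x
        ext i
        simp only [Submodule.coe_smul, Pi.smul_apply, RingHom.id_apply]
        split_ifs
        · rfl
        · simp
      invFun := fun x i => x.1 ⟨i.val, lt_of_lt_of_le i.2 hr⟩
      left_inv := by
        intro x
        funext i
        simp
      right_inv := by
        intro x
        ext i
        by_cases h : i.val < r
        · simp [h]
        · have := x.2 i (not_lt.1 h)
          simp [h, this] }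
  rw [← e.finrank_eq]
  simp

/-- too few columns: never injective -/
theorem prob_zero_of_few {n b ζ r : ℕ} (V : Submodule ℝ (Fin n → ℝ))
    (hV : Module.finrank ℝ V = r) (hbz : b * ζ < r) (α : ℝ) (hα : 0 < α) :
    prob {ω : Outcome n b ζ | Injects ω V α} = 0 := by
  have h : {ω : Outcome n b ζ | Injects ω V α} = ∅ := by
    ext ω
    simp only [Set.mem_setOf_eq, Set.mem_empty_iff_false, iff_false]
    intro hI
    let L : V →ₗ[ℝ] (Fin ζ × Fin b → ℝ) := ((sparseStack ω)ᵀ.mulVecLin).comp V.subtype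
    have hfr : Module.finrank ℝ (Fin ζ × Fin b → ℝ) < Module.finrank ℝ V := by
      rw [hV]
      simp only [Module.finrank_fintype_fun_eq_card, Fintype.card_prod, Fintype.card_fin]
      rwa [mul_comm]
    have hker := LinearMap.ker_ne_bot_of_finrank_lt (f := L) hfr
    obtain ⟨x, hx, hx0⟩ := (Submodule.ne_bot_iff _).1 hker
    have h1 := hI x.1 x.2
    have h2 : (sparseStack ω)ᵀ.mulVec x.1 = 0 := hx
    rw [h2] at h1
    have h3 : normSq (0 : Fin ζ × Fin b → ℝ) = 0 := by
      unfold normSq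
      simp
    rw [h3] at h1
    have h4 : 0 < normSq x.1 := by
      unfold normSq
      have hne : x.1 ≠ 0 := fun e => hx0 (Subtype.ext e)
      obtain ⟨i, hi⟩ := Function.ne_iff.1 hne
      exact Finset.sum_pos' (fun i _ => sq_nonneg _) ⟨i, Finset.mem_univ _, by
        have : x.1 i ≠ 0 := hi
        positivity⟩
    nlinarith
  rw [h]
  unfold prob
  simp

/-- Main quantitative theorem with natural sparsity bound. -/
theorem main (C : ℕ) (C₂ α η : ℝ) (hC : 0 < C) (hC₂ : 0 < C₂) (hα : 0 < α) (hη : 0 < η) :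
    ∃ r₀ : ℕ, ∀ r n b ζ : ℕ, r₀ ≤ r → r ≤ n → 1 ≤ ζ → 1 ≤ b → ζ ≤ C → ((b * ζ : ℕ) : ℝ) ≤ C₂ * r →
      prob {ω : Outcome n b ζ | Injects ω (coordSub n r) α} ≤ η := by
  obtain ⟨M, hM⟩ := exists_nat_gt (2 * C / (α * η))
  have hC' : (0 : ℝ) < C := by exact_mod_cast hC
  have hM0 : (0 : ℝ) < M := lt_trans (by positivity) hM
  have hMn : 0 < M := by exact_mod_cast hM0
  set κ : ℝ := 1 / (4 * M * C * C₂) with hκ
  have hκ0 : 0 < κ := by positivity
  set h0 : ℝ := 1 - Real.exp (-κ) with hh0
  have hh0pos : 0 < h0 := by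
    have : Real.exp (-κ) < 1 := by
      rw [Real.exp_lt_one_iff]
      linarith
    linarith
  have hh0le : h0 ≤ 1 := by
    have := Real.exp_pos (-κ)
    linarith
  -- the limit
  have hlim : Tendsto (fun r : ℕ => 4 / ((r : ℝ) * (h0 ^ M) ^ C) +
      ((1 + C / ((r : ℝ) * h0 ^ M)) ^ C - 1)) atTop (𝓝 0) := by
    have hr : Tendsto (fun r : ℕ => (r : ℝ)) atTop atTop := tendsto_natCast_atTop_atTop
    have t1 : Tendsto (fun r : ℕ => 4 / ((r : ℝ) * (h0 ^ M) ^ C)) atTop (𝓝 0) :=
      Tendsto.const_div_atTop (hr.atTop_mul_const (by positivity)) _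
    have t2 : Tendsto (fun r : ℕ => (C : ℝ) / ((r : ℝ) * h0 ^ M)) atTop (𝓝 0) :=
      Tendsto.const_div_atTop (hr.atTop_mul_const (by positivity)) _
    have t3 : Tendsto (fun r : ℕ => (1 + (C : ℝ) / ((r : ℝ) * h0 ^ M)) ^ C - 1) atTop (𝓝 0) := by
      have := ((t2.const_add 1).pow C).sub_const 1
      simpa using this
    simpa using t1.add t3
  obtain ⟨r₁, hr₁⟩ := eventually_atTop.1 (hlim.eventually (gt_mem_nhds (half_pos hη)))
  refine ⟨max r₁ (4 * M * C), ?_⟩
  intro r n b ζ hr hrn hζ hb hζC hk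
  have hr1 : r₁ ≤ r := (le_max_left _ _).trans hr
  have hr2 : 4 * M * C ≤ r := (le_max_right _ _).trans hr
  have hMC : 0 < M * C := Nat.mul_pos hMn hC
  have hr4 : 4 ≤ r := le_trans (by nlinarith) hr2
  have hrR : (0 : ℝ) < r := by
    have : (4 : ℝ) ≤ r := by exact_mod_cast hr4
    linarith
  by_cases hbz : b * ζ < r
  · rw [prob_zero_of_few _ (finrank_coordSub n r hrn) hbz α hα]
    exact hη.le
  · have hbz' : r ≤ b * ζ := not_lt.1 hbz
    have hbR : (0 : ℝ) < b := by exact_mod_cast hb
    have hζR : (1 : ℝ) ≤ ζ := by exact_mod_cast hζ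
    have hζCR : (ζ : ℝ) ≤ C := by exact_mod_cast hζC
    -- sizes
    set q : ℕ := (r / 2) / (M * C) with hq
    set R : ℕ := r / 2 with hR
    have hR1 : 1 ≤ R := by omega
    have hsize : R + M * (ζ * q) ≤ r := by
      have h1 : M * (ζ * q) ≤ M * C * q := by
        rw [← mul_assoc]
        exact Nat.mul_le_mul_right _ (Nat.mul_le_mul_left _ hζC)
      have h2 : M * C * q ≤ R := Nat.mul_div_le _ _
      omega
    -- the rows
    let e0 : Fin R ⊕ (Fin M × Fin ζ × Fin q) ≃ Fin (R + M * (ζ * q)) :=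
      (Equiv.sumCongr (Equiv.refl _) (((Equiv.refl _).prodCongr finProdFinEquiv).trans
        finProdFinEquiv)).trans finSumFinEquiv
    let row : Fin R ⊕ (Fin M × Fin ζ × Fin q) → Fin n :=
      fun x => Fin.castLE (hsize.trans hrn) (e0 x)
    have hrow : Function.Injective row := fun x y h => e0.injective (Fin.castLE_injective _ h)
    have hV : ∀ x, ∀ v : ℝ, (Pi.single (row x) v : Fin n → ℝ) ∈ coordSub n r := by
      intro x v i hi
      rw [Pi.single_apply, if_neg]
      intro e
      have h1 : (row x).val < r := lt_of_lt_of_le (e0 x).2 hsize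
      rw [← e] at h1
      omega
    have hmain := prob_injects_le (q := q) hb hζ hMn row hrow (coordSub n r) hV α hα
    -- hitting probability
    have hqlow : (r : ℝ) / (4 * M * C) ≤ q := by
      have h1 : r < 2 * (M * C) * (q + 1) := by
        have : r / (2 * (M * C)) = q := by
          rw [hq, Nat.div_div_eq_div_mul]
        rw [← this]
        exact Nat.lt_mul_div_succ r (by positivity)
      have h1' : (r : ℝ) < 2 * (M * C) * (q + 1) := by exact_mod_cast h1
      have h2' : (4 : ℝ) * M * C ≤ r := by exact_mod_cast hr2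
      rw [div_le_iff₀ (by positivity)]
      nlinarith
    have hbk : (b : ℝ) ≤ C₂ * r := by
      push_cast at hk
      nlinarith
    have hqb : κ ≤ (q : ℝ) / b := by
      rw [le_div_iff₀ hbR]
      calc κ * b ≤ κ * (C₂ * r) := mul_le_mul_of_nonneg_left hbk hκ0.le
        _ = (r : ℝ) / (4 * M * C) := by
          rw [hκ]
          field_simp
        _ ≤ q := hqlow
    have hhp : h0 ≤ hp b q := by
      unfold hp
      have h1 : (1 - 1 / (b : ℝ)) ^ q ≤ Real.exp (-κ) := by
        have hb1 : (1 : ℝ) ≤ b := by exact_mod_cast hb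
        have h2 : 0 ≤ 1 - 1 / (b : ℝ) := by
          rw [sub_nonneg, div_le_one hbR]
          exact hb1
        have h3 : 1 - 1 / (b : ℝ) ≤ Real.exp (-(1 / (b : ℝ))) := by
          have := Real.add_one_le_exp (-(1 / (b : ℝ)))
          linarith
        calc (1 - 1 / (b : ℝ)) ^ q ≤ (Real.exp (-(1 / (b : ℝ)))) ^ q := pow_le_pow_left₀ h2 h3 q
          _ = Real.exp (-((q : ℝ) / b)) := by
            rw [← Real.exp_nat_mul]
            congr 1
            ring
          _ ≤ Real.exp (-κ) := Real.exp_le_exp.2 (by linarith)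
      linarith
    have hhppos : 0 < hp b q := lt_of_lt_of_le hh0pos hhp
    have hno := no_root (R := R) (M := M) (q := q) ζ hb hR1 hhppos
    -- simplify the bound
    have hb1 : (1 : ℝ) / ((R : ℝ) * (hp b q ^ M) ^ ζ) ≤ 4 / ((r : ℝ) * (h0 ^ M) ^ C) := by
      have hRr : (r : ℝ) / 4 ≤ R := by
        have : r ≤ 4 * R := by omega
        have h' : (r : ℝ) ≤ 4 * R := by exact_mod_cast this
        linarith
      have hpow : (h0 ^ M) ^ C ≤ (hp b q ^ M) ^ ζ := by
        calc (h0 ^ M) ^ C ≤ (h0 ^ M) ^ ζ :=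
              pow_le_pow_of_le_one (by positivity) (pow_le_one₀ hh0pos.le hh0le) hζC
          _ ≤ (hp b q ^ M) ^ ζ := by gcongr
      have e1 : 4 / ((r : ℝ) * (h0 ^ M) ^ C) = 1 / ((r : ℝ) / 4 * (h0 ^ M) ^ C) := by
        field_simp
      rw [e1]
      refine one_div_le_one_div_of_le (by positivity) ?_
      exact mul_le_mul hRr hpow (by positivity) (by positivity)
    have hb2 : (1 + 1 / ((b : ℝ) * hp b q ^ M)) ^ ζ ≤ (1 + C / ((r : ℝ) * h0 ^ M)) ^ C := by
      have hbr : (r : ℝ) / C ≤ b := by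
        rw [div_le_iff₀ hC']
        have : (r : ℝ) ≤ b * ζ := by exact_mod_cast hbz'
        nlinarith
      have h1 : 1 / ((b : ℝ) * hp b q ^ M) ≤ C / ((r : ℝ) * h0 ^ M) := by
        have e1 : (C : ℝ) / ((r : ℝ) * h0 ^ M) = 1 / ((r : ℝ) / C * h0 ^ M) := by
          field_simp
        rw [e1]
        refine one_div_le_one_div_of_le (by positivity) ?_
        exact mul_le_mul hbr (by gcongr) (by positivity) (by positivity)
      calc (1 + 1 / ((b : ℝ) * hp b q ^ M)) ^ ζ ≤ (1 + C / ((r : ℝ) * h0 ^ M)) ^ ζ := by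
            gcongr
        _ ≤ (1 + C / ((r : ℝ) * h0 ^ M)) ^ C := by
            refine pow_le_pow_right₀ ?_ hζC
            have : 0 ≤ (C : ℝ) / ((r : ℝ) * h0 ^ M) := by positivity
            linarith
    have hlast := hr₁ r hr1
    have hfirst : (ζ : ℝ) / M / α ≤ η / 2 := by
      rw [div_div, div_le_iff₀ (by positivity)]
      rw [div_lt_iff₀ (by positivity)] at hM
      nlinarith
    have hsum : 1 / ((R : ℝ) * (hp b q ^ M) ^ ζ) + ((1 + 1 / (b * hp b q ^ M)) ^ ζ - 1)
        ≤ η / 2 := by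
      linarith
    linarith

end Pool.Agent.X145.SS
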