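import Pool.Agent.X145.SS.Defs

set_option autoImplicit false
open Finset Matrix

namespace Pool.Agent.X145.SS

/-- the sign -/
noncomputable def sg (x : Bool) : ℝ := if x then 1 else -1

theorem sg_sq (x : Bool) : sg x * sg x = 1 := by
  unfold sg
  split_ifs <;> norm_num

theorem sg_not (x : Bool) : sg (!x) = - sg x := by
  unfold sg
  cases x <;> simp

/-- flip one coordinate -/
def flip {I : Type*} [DecidableEq I] (i0 : I) : (I → Bool) ≃ (I → Bool) :=
  Equiv.piCongrRight (fun i => if i = i0 then Equiv.boolNot else Equiv.refl Bool)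

theorem flip_same {I : Type*} [DecidableEq I] (i0 : I) (σ : I → Bool) : flip i0 σ i0 = !(σ i0) := by
  simp [flip]

theorem flip_ne {I : Type*} [DecidableEq I] (i0 : I) (σ : I → Bool) (i : I) (h : i ≠ i0) :
    flip i0 σ i = σ i := by
  simp [flip, h]

theorem av_flip_zero {I : Type*} [Fintype I] [DecidableEq I] (i0 : I) (f : (I → Bool) → ℝ)
    (h : ∀ σ, f (flip i0 σ) = - f σ) : av f = 0 := by
  have h1 := av_equiv (flip i0) f
  have h2 : av (fun σ => f (flip i0 σ)) = - av f := by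
    rw [av_congr h]
    have := av_mul_left (-1) f
    simpa using this
  linarith

/-- orthonormal expansions -/
theorem av_sq_orth {A Ω : Type*} [Fintype A] [DecidableEq A] [Fintype Ω] [Nonempty Ω]
    (ε : A → Ω → ℝ) (c : A → ℝ) (h1 : ∀ a ω, ε a ω * ε a ω = 1)
    (h2 : ∀ a a', a ≠ a' → c a ≠ 0 → c a' ≠ 0 → av (fun ω => ε a ω * ε a' ω) = 0) :
    av (fun ω => (∑ a, c a * ε a ω) ^ 2) = ∑ a, c a ^ 2 := by
  have h3 : ∀ ω, (∑ a, c a * ε a ω) ^ 2 = ∑ a, ∑ a', (c a * c a') * (ε a ω * ε a' ω) := by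
    intro ω
    rw [sq, Finset.sum_mul_sum]
    exact Finset.sum_congr rfl fun a _ => Finset.sum_congr rfl fun a' _ => by ring
  rw [av_congr h3, av_sum]
  refine Finset.sum_congr rfl fun a _ => ?_
  rw [av_sum, Finset.sum_eq_single a]
  · rw [av_mul_left, av_congr (h1 a), av_const]
    ring
  · intro a' _ ha'
    rw [av_mul_left]
    by_cases hc : c a = 0
    · rw [hc]
      ring
    · by_cases hc' : c a' = 0
      · rw [hc']
        ring
      · rw [h2 a a' (Ne.symm ha') hc hc', mul_zero]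
  · intro h
    exact absurd (Finset.mem_univ a) h

/-- join signs and positions -/
def join {n b ζ : ℕ} (σ : Fin n × Fin ζ → Bool) (p : Fin n → Fin ζ → Fin b) : Outcome n b ζ :=
  fun i j => (σ (i, j), p i j)

/-- the short vector -/
noncomputable def xv {n ζ M : ℕ} (i0 : Fin n) (h : Fin M × Fin ζ → Fin n)
    (σ : Fin n × Fin ζ → Bool) : Fin n → ℝ :=
  Pi.single i0 1 - ∑ a : Fin M × Fin ζ, Pi.single (h a) (sg (σ (i0, a.2)) * sg (σ (h a, a.2)) / M)

/-- the surviving signs in block `j'` -/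
noncomputable def eps {n ζ M : ℕ} (i0 : Fin n) (h : Fin M × Fin ζ → Fin n) (j' : Fin ζ)
    (a : Fin M × Fin ζ) (σ : Fin n × Fin ζ → Bool) : ℝ :=
  sg (σ (i0, a.2)) * sg (σ (h a, a.2)) * sg (σ (h a, j'))

theorem eps_sq {n ζ M : ℕ} (i0 : Fin n) (h : Fin M × Fin ζ → Fin n) (j' : Fin ζ)
    (a : Fin M × Fin ζ) (σ : Fin n × Fin ζ → Bool) : eps i0 h j' a σ * eps i0 h j' a σ = 1 := by
  unfold eps
  have h1 := sg_sq (σ (i0, a.2))
  have h2 := sg_sq (σ (h a, a.2))
  have h3 := sg_sq (σ (h a, j'))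
  calc _ = (sg (σ (i0, a.2)) * sg (σ (i0, a.2))) * (sg (σ (h a, a.2)) * sg (σ (h a, a.2))) *
      (sg (σ (h a, j')) * sg (σ (h a, j'))) := by ring
    _ = 1 := by rw [h1, h2, h3]; norm_num

theorem eps_orth {n ζ M : ℕ} (i0 : Fin n) (h : Fin M × Fin ζ → Fin n)
    (hinj : Function.Injective h) (h0 : ∀ a, h a ≠ i0) (j' : Fin ζ)
    (a a' : Fin M × Fin ζ) (haa : a ≠ a') (ha : a.2 ≠ j') :
    av (fun σ => eps i0 h j' a σ * eps i0 h j' a' σ) = 0 := by
  refine av_flip_zero (h a, j') _ fun σ => ?_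
  have hne : h a' ≠ h a := fun e => haa (hinj e.symm)
  have e1 : flip (h a, j') σ (i0, a.2) = σ (i0, a.2) :=
    flip_ne _ _ _ (fun e => h0 a (congrArg Prod.fst e).symm)
  have e2 : flip (h a, j') σ (h a, a.2) = σ (h a, a.2) :=
    flip_ne _ _ _ (fun e => ha (congrArg Prod.snd e))
  have e3 : flip (h a, j') σ (h a, j') = !(σ (h a, j')) := flip_same _ _
  have e4 : flip (h a, j') σ (i0, a'.2) = σ (i0, a'.2) :=
    flip_ne _ _ _ (fun e => h0 a (congrArg Prod.fst e).symm)
  have e5 : flip (h a, j') σ (h a', a'.2) = σ (h a', a'.2) :=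
    flip_ne _ _ _ (fun e => hne (congrArg Prod.fst e))
  have e6 : flip (h a, j') σ (h a', j') = σ (h a', j') :=
    flip_ne _ _ _ (fun e => hne (congrArg Prod.fst e))
  unfold eps
  rw [e1, e2, e3, e4, e5, e6, sg_not]
  ring

theorem stack_join {n b ζ : ℕ} (σ : Fin n × Fin ζ → Bool) (p : Fin n → Fin ζ → Fin b) (i : Fin n)
    (c : Fin ζ × Fin b) : sparseStack (join σ p) i c =
      (if p i c.1 = c.2 then sg (σ (i, c.1)) / Real.sqrt ζ else 0) := rfl

theorem mulVec_single_sum {n b ζ : ℕ} (ω : Outcome n b ζ) (x : Fin n → ℝ) (c : Fin ζ × Fin b) :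
    (sparseStack ω)ᵀ.mulVec x c = ∑ i, sparseStack ω i c * x i := rfl

/-- the image of the short vector -/
theorem image_xv {n b ζ M : ℕ} (hM : 0 < M) (i0 : Fin n) (h : Fin M × Fin ζ → Fin n)
    (p : Fin n → Fin ζ → Fin b) (hp : ∀ a, p (h a) a.2 = p i0 a.2)
    (σ : Fin n × Fin ζ → Bool) (c : Fin ζ × Fin b) :
    (sparseStack (join σ p))ᵀ.mulVec (xv i0 h σ) c =
      ∑ a : Fin M × Fin ζ, (if a.2 = c.1 then 0 else if p (h a) c.1 = c.2 then
        -(1 / (M * Real.sqrt ζ)) else 0) * eps i0 h c.1 a σ := by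
  have hM' : (M : ℝ) ≠ 0 := by positivity
  rw [mulVec_single_sum]
  have h1 : ∀ i, sparseStack (join σ p) i c * xv i0 h σ i =
      sparseStack (join σ p) i c * (Pi.single i0 (1 : ℝ) : Fin n → ℝ) i -
      ∑ a : Fin M × Fin ζ, sparseStack (join σ p) i c *
        (Pi.single (h a) (sg (σ (i0, a.2)) * sg (σ (h a, a.2)) / M) : Fin n → ℝ) i := by
    intro i
    unfold xv
    rw [Pi.sub_apply, Finset.sum_apply, mul_sub, Finset.mul_sum]
  rw [Finset.sum_congr rfl fun i _ => h1 i, Finset.sum_sub_distrib, Finset.sum_comm]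
  have h2 : ∀ (k : Fin n) (v : ℝ), ∑ i, sparseStack (join σ p) i c * (Pi.single k v : Fin n → ℝ) i
      = sparseStack (join σ p) k c * v := by
    intro k v
    rw [Finset.sum_eq_single k]
    · rw [Pi.single_eq_same]
    · intro i _ hi
      rw [Pi.single_eq_of_ne hi, mul_zero]
    · intro hk
      exact absurd (Finset.mem_univ k) hk
  rw [h2, Finset.sum_congr rfl fun a _ => h2 (h a) _, mul_one]
  -- split the sum into the cancelling block and the rest
  have h3 : sparseStack (join σ p) i0 c = ∑ a : Fin M × Fin ζ,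
      (if a.2 = c.1 then sparseStack (join σ p) i0 c / M else 0) := by
    rw [Fintype.sum_prod_type]
    simp only [Finset.sum_ite_eq', Finset.mem_univ, if_true]
    rw [Finset.sum_const, Finset.card_univ, Fintype.card_fin, nsmul_eq_mul]
    field_simp
  rw [h3, ← Finset.sum_sub_distrib]
  refine Finset.sum_congr rfl fun a _ => ?_
  by_cases ha : a.2 = c.1
  · rw [if_pos ha, if_pos ha, zero_mul, stack_join, stack_join, ← ha, hp a]
    by_cases hc : p i0 a.2 = c.2
    · rw [if_pos hc, if_pos hc]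
      have := sg_sq (σ (h a, a.2))
      have e : sg (σ (h a, a.2)) / Real.sqrt ζ * (sg (σ (i0, a.2)) * sg (σ (h a, a.2)) / M)
          = sg (σ (i0, a.2)) / Real.sqrt ζ / M * (sg (σ (h a, a.2)) * sg (σ (h a, a.2))) := by ring
      rw [e, this]
      ring
    · rw [if_neg hc, if_neg hc]
      ring
  · rw [if_neg ha, if_neg ha, stack_join]
    by_cases hc : p (h a) c.1 = c.2
    · rw [if_pos hc, if_pos hc]
      unfold eps
      rw [zero_sub, neg_mul, neg_inj]
      field_simp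
    · rw [if_neg hc, if_neg hc]
      ring

theorem sum_ind {b : ℕ} (y : Fin b) (v : ℝ) : ∑ c : Fin b, (if y = c then v else 0) = v := by
  simp

/-- average of the squared norm of the image -/
theorem av_image {n b ζ M : ℕ} (hM : 0 < M) (hζ : 0 < ζ) (i0 : Fin n) (h : Fin M × Fin ζ → Fin n)
    (hinj : Function.Injective h) (h0 : ∀ a, h a ≠ i0)
    (p : Fin n → Fin ζ → Fin b) (hp : ∀ a, p (h a) a.2 = p i0 a.2) :
    av (fun σ : Fin n × Fin ζ → Bool =>
      normSq ((sparseStack (join σ p))ᵀ.mulVec (xv i0 h σ))) ≤ ζ / M := by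
  unfold normSq
  rw [av_sum]
  have hM' : (0 : ℝ) < M := by positivity
  have hζ' : (0 : ℝ) < ζ := by positivity
  have h1 : ∀ c : Fin ζ × Fin b, av (fun σ : Fin n × Fin ζ → Bool =>
      ((sparseStack (join σ p))ᵀ.mulVec (xv i0 h σ) c) ^ 2)
      = ∑ a : Fin M × Fin ζ, (if a.2 = c.1 then 0 else if p (h a) c.1 = c.2 then
        -(1 / (M * Real.sqrt ζ)) else 0) ^ 2 := by
    intro c
    rw [av_congr fun σ => by rw [image_xv hM i0 h p hp σ c]]
    refine av_sq_orth (fun a σ => eps i0 h c.1 a σ) _ (fun a σ => eps_sq _ _ _ _ _) ?_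
    intro a a' haa hc _
    refine eps_orth i0 h hinj h0 c.1 a a' haa ?_
    intro e
    rw [if_pos e] at hc
    exact hc rfl
  rw [Finset.sum_congr rfl fun c _ => h1 c]
  have h2 : ∀ c : Fin ζ × Fin b, ∀ a : Fin M × Fin ζ,
      ((if a.2 = c.1 then 0 else if p (h a) c.1 = c.2 then
        -(1 / (M * Real.sqrt ζ)) else 0 : ℝ)) ^ 2 ≤
      (if p (h a) c.1 = c.2 then 1 / ((M : ℝ) ^ 2 * ζ) else 0) := by
    intro c a
    have hsq : (-(1 / (M * Real.sqrt ζ))) ^ 2 = 1 / ((M : ℝ) ^ 2 * ζ) := by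
      rw [neg_sq, div_pow, mul_pow, Real.sq_sqrt hζ'.le, one_pow]
    by_cases ha : a.2 = c.1
    · rw [if_pos ha]
      split_ifs
      · rw [zero_pow (by norm_num)]
        positivity
      · norm_num
    · rw [if_neg ha]
      by_cases hc : p (h a) c.1 = c.2
      · rw [if_pos hc, if_pos hc, hsq]
      · rw [if_neg hc, if_neg hc]
        norm_num
  refine (Finset.sum_le_sum fun c _ => Finset.sum_le_sum fun a _ => h2 c a).trans ?_
  rw [Finset.sum_comm]
  have h3 : ∀ a : Fin M × Fin ζ, ∑ c : Fin ζ × Fin b,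
      (if p (h a) c.1 = c.2 then 1 / ((M : ℝ) ^ 2 * ζ) else 0) = ζ * (1 / ((M : ℝ) ^ 2 * ζ)) := by
    intro a
    rw [Fintype.sum_prod_type]
    rw [Finset.sum_congr rfl fun j _ => sum_ind (p (h a) j) _]
    simp
  rw [Finset.sum_congr rfl fun a _ => h3 a, Finset.sum_const, Finset.card_univ, Fintype.card_prod,
    Fintype.card_fin, Fintype.card_fin, nsmul_eq_mul]
  push_cast
  apply le_of_eq
  field_simp

/-- if the positions are good, the sign-conditional probability of injectivity is small -/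
theorem av_injects {n b ζ M : ℕ} (hM : 0 < M) (hζ : 0 < ζ) (i0 : Fin n) (h : Fin M × Fin ζ → Fin n)
    (hinj : Function.Injective h) (h0 : ∀ a, h a ≠ i0)
    (p : Fin n → Fin ζ → Fin b) (hp : ∀ a, p (h a) a.2 = p i0 a.2)
    (V : Submodule ℝ (Fin n → ℝ)) (hV0 : (Pi.single i0 (1 : ℝ) : Fin n → ℝ) ∈ V)
    (hV : ∀ a, ∀ v : ℝ, (Pi.single (h a) v : Fin n → ℝ) ∈ V) (α : ℝ) (hα : 0 < α)
    [∀ σ : Fin n × Fin ζ → Bool, Decidable (Injects (join σ p) V α)] :
    av (fun σ : Fin n × Fin ζ → Bool => if Injects (join σ p) V α then (1 : ℝ) else 0)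
      ≤ ζ / M / α := by
  have h1 := markov (f := fun σ : Fin n × Fin ζ → Bool =>
      normSq ((sparseStack (join σ p))ᵀ.mulVec (xv i0 h σ)))
    (fun σ => Finset.sum_nonneg fun c _ => sq_nonneg _) hα
  have h2 := av_image hM hζ i0 h hinj h0 p hp
  refine le_trans (av_mono fun σ => ?_) (h1.trans (div_le_div_of_nonneg_right h2 hα.le))
  by_cases hI : Injects (join σ p) V α
  · rw [if_pos hI]
    have hx : xv i0 h σ ∈ V := by
      unfold xv
      exact V.sub_mem hV0 (V.sum_mem fun a _ => hV a _)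
    have h3 := hI _ hx
    have h4 : 1 ≤ normSq (xv i0 h σ) := by
      have h5 : xv i0 h σ i0 = 1 := by
        unfold xv
        rw [Pi.sub_apply, Finset.sum_apply, Pi.single_eq_same,
          Finset.sum_eq_zero fun a _ => Pi.single_eq_of_ne (h0 a).symm _, sub_zero]
      have h6 := Finset.single_le_sum (f := fun i => (xv i0 h σ i) ^ 2)
        (fun i _ => sq_nonneg _) (Finset.mem_univ i0)
      simp only [h5] at h6
      unfold normSq
      linarith
    rw [if_pos]
    calc α = α * 1 := (mul_one α).symm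
      _ ≤ α * normSq (xv i0 h σ) := mul_le_mul_of_nonneg_left h4 hα.le
      _ ≤ _ := h3
  · rw [if_neg hI]
    split_ifs <;> norm_num

end Pool.Agent.X145.SS
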